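import Pool.Agent.Helper64.RFn.GoalsV

/-!
# Project RFn, packet FRCn: a frame gives a metric
-/

namespace Pool.Agent.Helper34.RFn

open Finset Matrix
open Pool.Agent.Helper47.RFn Pool.Agent.Helper73.RFn Pool.Agent.Helper64.RFn

theorem sm_mul {n : ℕ} {f g : EE n → ℝ} (hf : Sm f) (hg : Sm g) : Sm (fun x => f x * g x) :=
  ⟨hf.cd.mul hg.cd, fun r x hr => by rw [hf.hom r x hr, hg.hom r x hr]⟩

theorem sm_sum {n : ℕ} {ι : Type} (s : Finset ι) {f : ι → EE n → ℝ} (hf : ∀ a ∈ s, Sm (f a)) :
    Sm (fun x => ∑ a ∈ s, f a x) :=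
  ⟨ContDiffOn.sum fun a ha => (hf a ha).cd,
    fun r x hr => Finset.sum_congr rfl fun a ha => (hf a ha).hom r x hr⟩

theorem frcn : FRCn := by
  intro n A θ h
  have hm : ∀ x, θ x * A x = 1 := fun x => mul_eq_one_comm.1 (h.inv x)
  refine ⟨⟨?_, ?_, ?_⟩, h.smA, h.smt, h.inv, fun x => rfl⟩
  · intro i j
    have : (fun x => gOf θ x i j) = fun x => ∑ a, θ x i a * θ x j a := by
      funext x
      simp only [gOf, Matrix.mul_apply, Matrix.transpose_apply]
    rw [this]
    exact sm_sum _ fun a _ => sm_mul (h.smt i a) (h.smt j a)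
  · intro x
    have hinj : Function.Injective (θ x).transpose.mulVec := by
      intro v w hvw
      have e : (A x).transpose * (θ x).transpose = 1 := by
        rw [← Matrix.transpose_mul, hm, Matrix.transpose_one]
      have h1 : (A x).transpose.mulVec ((θ x).transpose.mulVec v) =
          (A x).transpose.mulVec ((θ x).transpose.mulVec w) := by rw [hvw]
      rwa [Matrix.mulVec_mulVec, Matrix.mulVec_mulVec, e, Matrix.one_mulVec, Matrix.one_mulVec] at h1
    have h2 := Matrix.PosDef.conjTranspose_mul_self (θ x).transpose hinj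
    have h3 : ((θ x).transpose)ᴴ * (θ x).transpose = gOf θ x := by
      rw [Matrix.conjTranspose_eq_transpose_of_trivial, Matrix.transpose_transpose]
      rfl
    rwa [h3] at h2
  · intro x i
    have e1 : ∀ j, gOf θ x i j = ∑ a, θ x i a * θ x j a := fun j => by
      simp only [gOf, Matrix.mul_apply, Matrix.transpose_apply]
    have e2 : ∀ i j, ∑ a, θ x i a * A x a j = if i = j then 1 else 0 := fun i j => by
      have := congrFun (congrFun (hm x) i) j
      rwa [Matrix.mul_apply, Matrix.one_apply] at this
    calc ∑ j, gOf θ x i j * x j = ∑ j, ∑ a, θ x i a * (θ x j a * x j) := by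
          refine Finset.sum_congr rfl fun j _ => ?_
          rw [e1, Finset.sum_mul]
          exact Finset.sum_congr rfl fun a _ => by ring
      _ = ∑ a, θ x i a * ∑ j, θ x j a * x j := by
          rw [Finset.sum_comm]
          exact Finset.sum_congr rfl fun a _ => by rw [Finset.mul_sum]
      _ = ∑ a, θ x i a * ∑ j, A x a j * x j := by
          refine Finset.sum_congr rfl fun a _ => ?_
          rw [← h.nA x a]
      _ = ∑ j, (∑ a, θ x i a * A x a j) * x j := by
          simp only [Finset.mul_sum, Finset.sum_mul]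
          rw [Finset.sum_comm]
          exact Finset.sum_congr rfl fun j _ => Finset.sum_congr rfl fun a _ => by ring
      _ = x i := by
          simp only [e2, ite_mul, one_mul, zero_mul, Finset.sum_ite_eq, Finset.mem_univ, if_true]

end Pool.Agent.Helper34.RFn
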