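import Pool.Agent.Helper47.RFn.GoalsB

/-!
# Project RFn, packet HEA: the heat equation along the flow
-/

namespace Pool.Agent.Helper47.RFn

open Finset

theorem goal_HEA (hMP1 : Goal_MP1) (hEVS : Goal_EVS) (hBIA : Goal_BIA) (hPRD : Goal_PRD)
    (_hVIN : Goal_VIN) (_hBDD : Goal_BDD) : Goal_HEA := by
  intro n hn C A0 hC hA0
  obtain ⟨C1, hC1, hbia⟩ := hBIA n (by omega)
  have hn0 : (0 : ℝ) ≤ n := Nat.cast_nonneg n
  set Q : ℝ := ((n : ℝ) + 1) + C1 * C ^ 2 with hQ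
  have hQ0 : 0 < Q := by positivity
  set Bc : ℝ := (((n : ℝ) + 1) + 2 * A0 * Q) / 2 with hBc
  have hBc0 : 0 < Bc := by positivity
  refine ⟨Bc, hBc0, ?_⟩
  intro T F hF hRF l0 hl0 hcone htl u hu hDu hini hbd
  have hB := hF.toBase
  have hHu : F.Hop u = 0 := by
    unfold FB.Hop
    rw [hDu, sub_self]
  obtain ⟨hE1, hE2⟩ := (hEVS n T F (by omega) hF hRF).2.2.2.2 u hu hHu
  have hprd := (hPRD n T F).1
  have hB1 : ∀ z (t : TI T), F.ev z t (F.Hop (F.gg u u)) = -(2 * F.ev z t (F.h2 u)) := by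
    intro z t
    rw [hE1, map_neg, map_smul, smul_eq_mul]
  -- step (i)
  have hone : F.Hop (1 : F.B) = 0 := by
    have h := ((hprd 0 0).2.2.2.1 1).2
    rwa [map_one] at h
  have hi : ∀ z (t : TI T), F.ev z t (F.gg u u) ≤ 1 := by
    intro z t
    have h := hMP1 n T F hB (1 - F.gg u u) 0 t 0 1 le_rfl t.2.2 le_rfl one_pos ?_ ?_ z t t.2.1 le_rfl
    · rw [map_sub, map_one] at h
      linarith
    · intro ε hε
      obtain ⟨t0, ht0, _, h0⟩ := hini ε hε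
      refine ⟨t0, ht0, fun z t _ ht => ?_⟩
      have h := h0 z t (by linarith)
      rw [map_neg] at h
      rw [map_sub, map_one]
      linarith
    · intro z t _ _ _ _ _
      rw [zero_mul, (hprd 1 (F.gg u u)).2.2.1, hone, zero_sub, map_neg, hB1]
      have h := ((hbia T F hF z t).2.2.2.2.2.2.2 u).2.1
      linarith
  -- step (ii)
  set v := F.Lap u with hv
  have hX : F.Hop v = (2 : ℝ) • ∑ a, ∑ b, F.Ric a b * F.H a (F.H b u) := hE2
  have htt : F.Hop F.tt = 1 := by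
    unfold FB.Hop FB.Lap
    rw [hB.tt_D]
    have : ∀ a, F.H a (F.H a F.tt) = 0 := fun a => by rw [hB.tt_H, map_zero]
    simp only [this, sum_const_zero, sub_zero]
  have hgt : ∀ g, F.gg F.tt g = 0 := by
    intro g
    unfold FB.gg
    simp only [hB.tt_H, zero_mul, sum_const_zero]
  have hF0 : F.Hop (F.tt * v ^ 2 + Bc • F.gg u u) =
      F.tt * ((2 : ℝ) • (v * ((2 : ℝ) • ∑ a, ∑ b, F.Ric a b * F.H a (F.H b u)))
        - (2 : ℝ) • F.gg v v) + v ^ 2 + Bc • (-((2 : ℝ) • F.h2 u)) := by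
    rw [(hprd _ _).2.1, (hprd _ _).1, ((hprd (F.gg u u) 0).2.2.2.1 Bc).1, hE1, htt, hgt,
      (hprd v 0).2.2.2.2, hX, smul_zero, sub_zero, mul_one]
  have hpt : ∀ z (t : TI T), F.ev z t (F.Hop (F.tt * v ^ 2 + Bc • F.gg u u)) ≤ 0 := by
    intro z t
    obtain ⟨b1, b2, b3, b4, b5, b6, b7, b8⟩ := hbia T F hF z t
    obtain ⟨c1, c2⟩ := hcone z t
    have hlam : 0 < F.ev z t F.lam := by linarith
    have hx2 := (b6 (C * F.ev z t F.lam) c2).2 u
    obtain ⟨g1, g2, g3, g4⟩ := b8 u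
    have g5 := (b8 v).1
    have ht : 0 < (t : ℝ) := t.2.1
    have hA := htl z t
    rw [hF0]
    simp only [map_add, map_sub, map_mul, map_smul, map_neg, map_pow, hB.tt_ev, smul_eq_mul]
    set X := F.ev z t (∑ a, ∑ b, F.Ric a b * F.H a (F.H b u)) with hXd
    set vv := F.ev z t v with hvv
    set h := F.ev z t (F.h2 u) with hh
    set l := F.ev z t F.lam with hl
    have e1 : 4 * (vv * X) * l ≤ 2 * l ^ 2 * (Q * h) := by
      have s1 : 0 ≤ (l * vv - X) ^ 2 := sq_nonneg _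
      have s2 : vv ^ 2 ≤ ((n : ℝ) + 1) * h := g4
      have s3 : X ^ 2 ≤ C1 * (C * l) ^ 2 * h := hx2
      have s4 : l ^ 2 * vv ^ 2 ≤ l ^ 2 * (((n : ℝ) + 1) * h) :=
        mul_le_mul_of_nonneg_left s2 (sq_nonneg l)
      rw [hQ]
      nlinarith
    have e2 : 4 * (vv * X) ≤ 2 * l * (Q * h) := by
      have : (4 * (vv * X)) * l ≤ (2 * l * (Q * h)) * l := by nlinarith
      exact le_of_mul_le_mul_right this hlam
    have e3 : (t : ℝ) * (4 * (vv * X)) ≤ 2 * A0 * (Q * h) := by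
      have s1 : (t : ℝ) * (4 * (vv * X)) ≤ t * (2 * l * (Q * h)) :=
        mul_le_mul_of_nonneg_left e2 ht.le
      have s2 : (t : ℝ) * l * (2 * (Q * h)) ≤ A0 * (2 * (Q * h)) :=
        mul_le_mul_of_nonneg_right hA (by positivity)
      nlinarith
    have e4 : 0 ≤ (t : ℝ) * F.ev z t (F.gg v v) := mul_nonneg ht.le g5
    have e5 : vv ^ 2 ≤ ((n : ℝ) + 1) * h := g4
    have e6 : Bc * (2 * h) = ((n : ℝ) + 1) * h + 2 * A0 * (Q * h) := by
      rw [hBc]; ring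
    nlinarith
  intro z t
  refine ⟨hi z t, ?_⟩
  have h := hMP1 n T F hB (algebraMap ℝ F.B Bc - (F.tt * v ^ 2 + Bc • F.gg u u)) 0 t 0 1 le_rfl
    t.2.2 le_rfl one_pos ?_ ?_ z t t.2.1 le_rfl
  · simp only [map_add, map_sub, map_mul, map_smul, map_pow, hB.tt_ev, smul_eq_mul,
      AlgHom.commutes] at h
    have g1 := ((hbia T F hF z t).2.2.2.2.2.2.2 u).1
    have g2 : 0 ≤ Bc * F.ev z t (F.gg u u) := mul_nonneg hBc0.le g1
    have e : (algebraMap ℝ ℝ) Bc = Bc := rfl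
    rw [e] at h
    linarith
  · intro ε hε
    obtain ⟨Cb, t0, ht0, _, h0⟩ := hbd
    refine ⟨min t0 (ε / (Cb ^ 2 + 1)), lt_min ht0 (by positivity), fun z t _ ht => ?_⟩
    have ht' : (t : ℝ) < min t0 (ε / (Cb ^ 2 + 1)) := by linarith
    have h1 := h0 z t (ht'.trans_le (min_le_left _ _))
    have h2 : (t : ℝ) < ε / (Cb ^ 2 + 1) := ht'.trans_le (min_le_right _ _)
    rw [lt_div_iff₀ (by positivity)] at h2
    have h3 : F.ev z t v ^ 2 ≤ Cb ^ 2 := by
      rw [← sq_abs (F.ev z t v)]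
      exact pow_le_pow_left₀ (abs_nonneg _) h1 2
    have h4 := hi z t
    have ht0' : 0 < (t : ℝ) := t.2.1
    simp only [map_add, map_sub, map_mul, map_smul, map_pow, hB.tt_ev, smul_eq_mul,
      AlgHom.commutes]
    have e : (algebraMap ℝ ℝ) Bc = Bc := rfl
    rw [e]
    have h5 : Bc * F.ev z t (F.gg u u) ≤ Bc * 1 := mul_le_mul_of_nonneg_left h4 hBc0.le
    have h6 : (t : ℝ) * F.ev z t v ^ 2 ≤ t * Cb ^ 2 := mul_le_mul_of_nonneg_left h3 ht0'.le
    nlinarith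
  · intro z t _ _ _ _ _
    have hc : F.Hop (algebraMap ℝ F.B Bc) = 0 := ((hprd 0 0).2.2.2.1 Bc).2
    rw [zero_mul, (hprd _ _).2.2.1, hc, zero_sub, map_neg]
    have := hpt z t
    linarith

end Pool.Agent.Helper47.RFn
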