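import Pool.Agent.Helper47.RFn.GoalsC

/-!
# Project RFn, packet SMA: the algebra of smooth functions on the sphere
-/

namespace Pool.Agent.Helper47.RFn.SMA34

open Finset

variable {n : ℕ}

/-- nonzero vectors -/
abbrev X0 (n : ℕ) : Type := {x : EE n // x ≠ 0}

theorem ed_congr (i : Fin (n + 1)) {f h : EE n → ℝ} (hfh : ∀ x : X0 n, f x = h x) (x : X0 n) :
    ed i f x = ed i h x := by
  unfold ed pd
  have : f =ᶠ[nhds (x : EE n)] h := by
    filter_upwards [isOpen_compl_singleton.mem_nhds (show (x : EE n) ∈ ({0}ᶜ : Set (EE n)) from x.2)]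
      with y hy
    exact hfh ⟨y, hy⟩
  rw [this.fderiv_eq]

/-- the algebra of restrictions of smooth homogeneous functions -/
def SA (hC1 : Goal_C1) (n : ℕ) : Subalgebra ℝ (X0 n → ℝ) where
  carrier := {f | ∃ h : EE n → ℝ, Sm h ∧ ∀ x : X0 n, f x = h x}
  mul_mem' := by
    rintro f g ⟨a, ha, ha'⟩ ⟨b, hb, hb'⟩
    exact ⟨fun x => a x * b x, (hC1 n).2.2.2.1 a b ha hb, fun x => by
      rw [Pi.mul_apply, ha', hb']⟩
  add_mem' := by
    rintro f g ⟨a, ha, ha'⟩ ⟨b, hb, hb'⟩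
    exact ⟨fun x => a x + b x, (hC1 n).2.1 a b ha hb, fun x => by
      rw [Pi.add_apply, ha', hb']⟩
  algebraMap_mem' := fun r => ⟨fun _ => r, (hC1 n).1 r, fun x => rfl⟩

/-- a smooth representative -/
noncomputable def rp (hC1 : Goal_C1) (f : SA hC1 n) : EE n → ℝ := f.2.choose

theorem rp_sm (hC1 : Goal_C1) (f : SA hC1 n) : Sm (rp hC1 f) := f.2.choose_spec.1

theorem rp_eq (hC1 : Goal_C1) (f : SA hC1 n) (x : X0 n) : f.1 x = rp hC1 f x :=
  f.2.choose_spec.2 x

/-- an element of the algebra -/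
def el (hC1 : Goal_C1) (h : EE n → ℝ) (hh : Sm h) : SA hC1 n := ⟨fun x => h x, h, hh, fun _ => rfl⟩

theorem el_apply (hC1 : Goal_C1) (h : EE n → ℝ) (hh : Sm h) (x : X0 n) :
    (el hC1 h hh).1 x = h x := rfl

/-- the derivations -/
noncomputable def dv (hC1 : Goal_C1) (hC2 : Goal_C2) (i : Ix n) : Derivation ℝ (SA hC1 n) (SA hC1 n) :=
  Derivation.mk'
    { toFun := fun f => el hC1 (ed i (rp hC1 f)) ((hC1 n).2.2.2.2.2.2.2.2.1 _ i (rp_sm hC1 f))
      map_add' := by
        intro f g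
        apply Subtype.ext
        funext x
        change ed i (rp hC1 (f + g)) x = ed i (rp hC1 f) x + ed i (rp hC1 g) x
        rw [← (hC2 n).2.1 i (rp hC1 f) (rp hC1 g) x (rp_sm hC1 f) (rp_sm hC1 g)]
        refine ed_congr i (fun y => ?_) x
        rw [← rp_eq, ← rp_eq, ← rp_eq]
        rfl
      map_smul' := by
        intro c f
        apply Subtype.ext
        funext x
        change ed i (rp hC1 (c • f)) x = c * ed i (rp hC1 f) x
        rw [← (hC2 n).2.2.2.2.2.1 i c (rp hC1 f) x (rp_sm hC1 f)]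
        refine ed_congr i (fun y => ?_) x
        rw [← rp_eq, ← rp_eq]
        rfl }
    (by
      intro f g
      apply Subtype.ext
      funext x
      change ed i (rp hC1 (f * g)) x = f.1 x * ed i (rp hC1 g) x + g.1 x * ed i (rp hC1 f) x
      have h := (hC2 n).2.2.2.2.1 i (rp hC1 f) (rp hC1 g) x (rp_sm hC1 f) (rp_sm hC1 g)
      have e : f.1 x * ed i (rp hC1 g) x + g.1 x * ed i (rp hC1 f) x =
          ed i (fun y => rp hC1 f y * rp hC1 g y) x := by
        rw [h, rp_eq, rp_eq]; ring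
      rw [e]
      refine ed_congr i (fun y => ?_) x
      rw [← rp_eq, ← rp_eq, ← rp_eq]
      rfl)

theorem dv_apply (hC1 : Goal_C1) (hC2 : Goal_C2) (i : Ix n) (f : SA hC1 n) (h : EE n → ℝ)
    (hf : ∀ x : X0 n, f.1 x = h x) (x : X0 n) : (dv hC1 hC2 i f).1 x = ed i h x := by
  change ed i (rp hC1 f) x = ed i h x
  exact ed_congr i (fun y => by rw [← rp_eq, hf]) x

/-- the evaluation -/
def evl (hC1 : Goal_C1) (x : X0 n) : SA hC1 n →ₐ[ℝ] ℝ :=
  (Pi.evalAlgHom ℝ (fun _ : X0 n => ℝ) x).comp (SA hC1 n).val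

theorem evl_apply (hC1 : Goal_C1) (x : X0 n) (f : SA hC1 n) : evl hC1 x f = f.1 x := rfl

theorem frame (hC1 : Goal_C1) (hC2 : Goal_C2) (hC3 : Goal_C3) (A θ : MF n) (hA : Frm A θ)
    (A' θ' : Ix n → Ix n → SA hC1 n) (h1 : ∀ a i (x : X0 n), evl hC1 x (A' a i) = A x a i)
    (h2 : ∀ i a (x : X0 n), evl hC1 x (θ' i a) = θ x i a) :
    FrameHyp (dv hC1 hC2) (fun i => el hC1 (nn i) ((hC1 n).2.2.2.2.2.2.2.2.2.2.2 i)) A' θ' := by
  have hext : ∀ f g : SA hC1 n, (∀ x, evl hC1 x f = evl hC1 x g) → f = g := fun f g h =>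
    Subtype.ext (funext h)
  refine ⟨?_, ?_, ?_, ?_, ?_, ?_, ?_⟩
  · intro i j f
    apply hext
    intro x
    rw [map_sub, map_sub, map_mul, map_mul]
    simp only [evl_apply]
    have s := rp_sm hC1 f
    have e1 : ∀ k (y : X0 n), (dv hC1 hC2 k f).1 y = ed k (rp hC1 f) y := fun k y =>
      dv_apply hC1 hC2 k f _ (rp_eq hC1 f) y
    rw [dv_apply hC1 hC2 i _ _ (e1 j), dv_apply hC1 hC2 j _ _ (e1 i), e1, e1]
    exact (hC3 n).1 i j _ x s x.2
  · intro i j
    apply hext
    intro x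
    rw [map_sub, map_mul]
    simp only [evl_apply]
    rw [dv_apply hC1 hC2 i _ (nn j) fun y => rfl, (hC3 n).2.2.1 i j x x.2]
    congr 1
    split_ifs
    · rfl
    · rfl
  · apply hext
    intro x
    rw [map_sum, map_one]
    simp only [map_pow, evl_apply]
    exact (hC3 n).2.2.2.1 x x.2
  · intro f
    apply hext
    intro x
    rw [map_sum, map_zero]
    simp only [map_mul, evl_apply]
    have e1 : ∀ k (y : X0 n), (dv hC1 hC2 k f).1 y = ed k (rp hC1 f) y := fun k y =>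
      dv_apply hC1 hC2 k f _ (rp_eq hC1 f) y
    simp only [e1]
    exact (hC3 n).2.1 _ x (rp_sm hC1 f) x.2
  · intro a b
    apply hext
    intro x
    rw [map_sum]
    simp only [map_mul, h1, h2]
    have h := congrFun (congrFun (hA.inv x) a) b
    rw [Matrix.mul_apply, Matrix.one_apply] at h
    rw [h]
    split_ifs
    · rw [map_one]
    · rw [map_zero]
  · intro i j
    apply hext
    intro x
    rw [map_sum]
    simp only [map_mul, h1, h2]
    have hm : θ x * A x = 1 := mul_eq_one_comm.1 (hA.inv x)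
    have h := congrFun (congrFun hm i) j
    rw [Matrix.mul_apply, Matrix.one_apply] at h
    rw [h]
    split_ifs
    · rw [map_one]
    · rw [map_zero]
  · intro a
    apply hext
    intro x
    rw [map_sum, map_sum]
    simp only [map_mul, h1, h2]
    change ∑ i, A x a i * nn i (x : EE n) = ∑ i, θ x i a * nn i (x : EE n)
    unfold nn
    simp only [mul_div_assoc']
    rw [← sum_div, ← sum_div, hA.nA]

end Pool.Agent.Helper47.RFn.SMA34

namespace Pool.Agent.Helper47.RFn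

theorem goal_SMA (hC1 : Goal_C1) (hC2 : Goal_C2) (hC3 : Goal_C3) : Goal_SMA := by
  intro n
  refine ⟨SMA34.SA hC1 n, inferInstance, inferInstance, SMA34.dv hC1 hC2,
    fun i => SMA34.el hC1 (nn i) ((hC1 n).2.2.2.2.2.2.2.2.2.2.2 i), SMA34.evl hC1, ?_, ?_, ?_, ?_,
    ?_, ?_⟩
  · intro f g h
    exact Subtype.ext (funext h)
  · intro h hh
    exact ⟨SMA34.el hC1 h hh, fun x => rfl⟩
  · intro f
    exact ⟨SMA34.rp hC1 f, SMA34.rp_sm hC1 f, fun x => SMA34.rp_eq hC1 f x⟩
  · intro f h _ hf i x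
    exact SMA34.dv_apply hC1 hC2 i f h hf x
  · intro i x
    rfl
  · intro A θ hA A' θ' h1 h2
    exact SMA34.frame hC1 hC2 hC3 A θ hA A' θ' h1 h2

end Pool.Agent.Helper47.RFn
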