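import Pool.Agent.Helper47.RFn.GoalsA

/-!
# Project RFn, packet VIN: functions of the point are killed by the vertical derivations
-/

namespace Pool.Agent.Helper47.RFn.VIN34

open Finset

section alg
variable {B : Type*} [CommRing B] {m : ℕ}

/-- Kronecker symbol -/
def dd (a b : Fin m) : B := if a = b then 1 else 0

theorem sum_dd (l : Fin m) (G : Fin m → B) : ∑ a, dd l a * G a = G l := by
  simp [dd]

theorem sum_dd' (l : Fin m) (G : Fin m → B) : ∑ a, G a * dd l a = G l := by
  simp [dd]

theorem sq1 (T : Fin m → Fin m → B) (hT : ∀ x y, T x y = T y x) (k l : Fin m) :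
    ∑ a, (dd l a * T a k - dd k a * T a l) = 0 := by
  rw [sum_sub_distrib, sum_dd, sum_dd, hT, sub_self]

theorem sq2 (T : Fin m → Fin m → B) (k l : Fin m) :
    ∑ a, ∑ b, T a b * (dd l a * T k b - dd k a * T l b + dd l b * T a k - dd k b * T a l) = 0 := by
  have e1 : ∑ a, ∑ b, T a b * (dd l a * T k b - dd k a * T l b) = 0 := by
    refine Eq.trans (sum_congr rfl fun a _ => ?_)
      (sq1 (fun x y => ∑ b, T x b * T y b)
        (fun x y => sum_congr rfl fun b _ => mul_comm _ _) k l)
    rw [mul_sum, mul_sum, ← sum_sub_distrib]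
    exact sum_congr rfl fun b _ => by ring
  have e2 : ∑ a, ∑ b, T a b * (dd l b * T a k - dd k b * T a l) = 0 := by
    refine Finset.sum_eq_zero fun a _ => ?_
    refine Eq.trans (sum_congr rfl fun b _ => ?_)
      (sq1 (fun x y => T a x * T a y) (fun x y => mul_comm _ _) k l)
    ring
  rw [← add_zero (0 : B)]
  nth_rw 1 [← e1]
  rw [← e2, ← sum_add_distrib]
  refine sum_congr rfl fun a _ => ?_
  rw [← sum_add_distrib]
  exact sum_congr rfl fun b _ => by ring

theorem sq3 (T : Fin m → Fin m → Fin m → B) (k l : Fin m) :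
    ∑ a, ∑ b, ∑ c, T a b c * (dd l a * T k b c - dd k a * T l b c
      + dd l b * T a k c - dd k b * T a l c + dd l c * T a b k - dd k c * T a b l) = 0 := by
  have e1 : ∑ a, ∑ b, ∑ c, T a b c * (dd l a * T k b c - dd k a * T l b c) = 0 := by
    refine Eq.trans (sum_congr rfl fun a _ => ?_)
      (sq1 (fun x y => ∑ b, ∑ c, T x b c * T y b c)
        (fun x y => sum_congr rfl fun b _ => sum_congr rfl fun c _ => mul_comm _ _) k l)
    simp only [mul_sum]
    rw [← sum_sub_distrib]
    refine sum_congr rfl fun b _ => ?_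
    rw [← sum_sub_distrib]
    exact sum_congr rfl fun c _ => by ring
  have e2 : ∑ a, ∑ b, ∑ c, T a b c * (dd l b * T a k c - dd k b * T a l c
      + dd l c * T a b k - dd k c * T a b l) = 0 :=
    Finset.sum_eq_zero fun a _ => sq2 (T a) k l
  rw [← add_zero (0 : B)]
  nth_rw 1 [← e1]
  rw [← e2, ← sum_add_distrib]
  refine sum_congr rfl fun a _ => ?_
  rw [← sum_add_distrib]
  refine sum_congr rfl fun b _ => ?_
  rw [← sum_add_distrib]
  exact sum_congr rfl fun c _ => by ring

theorem sq4 (T : Fin m → Fin m → Fin m → Fin m → B) (k l : Fin m) :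
    ∑ a, ∑ b, ∑ c, ∑ d, T a b c d * (dd l a * T k b c d - dd k a * T l b c d
      + dd l b * T a k c d - dd k b * T a l c d + dd l c * T a b k d - dd k c * T a b l d
      + dd l d * T a b c k - dd k d * T a b c l) = 0 := by
  have e1 : ∑ a, ∑ b, ∑ c, ∑ d, T a b c d * (dd l a * T k b c d - dd k a * T l b c d) = 0 := by
    refine Eq.trans (sum_congr rfl fun a _ => ?_)
      (sq1 (fun x y => ∑ b, ∑ c, ∑ d, T x b c d * T y b c d)
        (fun x y => sum_congr rfl fun b _ => sum_congr rfl fun c _ => sum_congr rfl fun d _ =>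
          mul_comm _ _) k l)
    simp only [mul_sum]
    rw [← sum_sub_distrib]
    refine sum_congr rfl fun b _ => ?_
    rw [← sum_sub_distrib]
    refine sum_congr rfl fun c _ => ?_
    rw [← sum_sub_distrib]
    exact sum_congr rfl fun d _ => by ring
  have e2 : ∑ a, ∑ b, ∑ c, ∑ d, T a b c d * (dd l b * T a k c d - dd k b * T a l c d
      + dd l c * T a b k d - dd k c * T a b l d
      + dd l d * T a b c k - dd k d * T a b c l) = 0 :=
    Finset.sum_eq_zero fun a _ => sq3 (T a) k l
  rw [← add_zero (0 : B)]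
  nth_rw 1 [← e1]
  rw [← e2, ← sum_add_distrib]
  refine sum_congr rfl fun a _ => ?_
  rw [← sum_add_distrib]
  refine sum_congr rfl fun b _ => ?_
  rw [← sum_add_distrib]
  refine sum_congr rfl fun c _ => ?_
  rw [← sum_add_distrib]
  exact sum_congr rfl fun d _ => by ring

theorem sq5 (T : Fin m → Fin m → Fin m → Fin m → Fin m → B) (k l : Fin m) :
    ∑ e, ∑ a, ∑ b, ∑ c, ∑ d, T e a b c d * (dd l e * T k a b c d - dd k e * T l a b c d
      + dd l a * T e k b c d - dd k a * T e l b c d
      + dd l b * T e a k c d - dd k b * T e a l c d + dd l c * T e a b k d - dd k c * T e a b l d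
      + dd l d * T e a b c k - dd k d * T e a b c l) = 0 := by
  have e1 : ∑ e, ∑ a, ∑ b, ∑ c, ∑ d, T e a b c d *
      (dd l e * T k a b c d - dd k e * T l a b c d) = 0 := by
    refine Eq.trans (sum_congr rfl fun e _ => ?_)
      (sq1 (fun x y => ∑ a, ∑ b, ∑ c, ∑ d, T x a b c d * T y a b c d)
        (fun x y => sum_congr rfl fun a _ => sum_congr rfl fun b _ => sum_congr rfl fun c _ =>
          sum_congr rfl fun d _ => mul_comm _ _) k l)
    simp only [mul_sum]
    rw [← sum_sub_distrib]
    refine sum_congr rfl fun a _ => ?_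
    rw [← sum_sub_distrib]
    refine sum_congr rfl fun b _ => ?_
    rw [← sum_sub_distrib]
    refine sum_congr rfl fun c _ => ?_
    rw [← sum_sub_distrib]
    exact sum_congr rfl fun d _ => by ring
  have e2 : ∑ e, ∑ a, ∑ b, ∑ c, ∑ d, T e a b c d * (dd l a * T e k b c d - dd k a * T e l b c d
      + dd l b * T e a k c d - dd k b * T e a l c d + dd l c * T e a b k d - dd k c * T e a b l d
      + dd l d * T e a b c k - dd k d * T e a b c l) = 0 :=
    Finset.sum_eq_zero fun e _ => sq4 (T e) k l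
  rw [← add_zero (0 : B)]
  nth_rw 1 [← e1]
  rw [← e2, ← sum_add_distrib]
  refine sum_congr rfl fun e _ => ?_
  rw [← sum_add_distrib]
  refine sum_congr rfl fun a _ => ?_
  rw [← sum_add_distrib]
  refine sum_congr rfl fun b _ => ?_
  rw [← sum_add_distrib]
  refine sum_congr rfl fun c _ => ?_
  rw [← sum_add_distrib]
  exact sum_congr rfl fun d _ => by ring

end alg

variable {n : ℕ} {T : ℝ} {F : FB n T}

theorem dl_eq (a b : Ix n) : F.dl a b = (dd a b : F.B) := rfl

theorem map_dl (δ : Derivation ℝ F.B F.B) (a b : Ix n) : δ (F.dl a b) = 0 := by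
  unfold FB.dl
  split_ifs
  · exact δ.map_one_eq_zero
  · exact map_zero δ

theorem map_dl_mul (δ : Derivation ℝ F.B F.B) (a b : Ix n) (f : F.B) :
    δ (F.dl a b * f) = F.dl a b * δ f := by
  rw [δ.leibniz, map_dl, smul_zero, add_zero, smul_eq_mul]

theorem map_mul' (δ : Derivation ℝ F.B F.B) (f g : F.B) : δ (f * g) = f * δ g + g * δ f := by
  rw [δ.leibniz, smul_eq_mul, smul_eq_mul]

theorem map_sm (δ : Derivation ℝ F.B F.B) (c : ℝ) (f : F.B) : δ (c • f) = c • δ f :=
  δ.map_smul c f

theorem map_sq (δ : Derivation ℝ F.B F.B) (f : F.B) : δ (f ^ 2) = 2 * (f * δ f) := by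
  rw [pow_two, map_mul' δ]; ring

/-- the projection is a tensor -/
theorem V_P (hF : F.Base) (k l a b : Ix n) : F.V k l (F.P a b) =
    F.dl l a * F.P k b - F.dl k a * F.P l b + F.dl l b * F.P a k - F.dl k b * F.P a l := by
  unfold FB.P
  rw [map_sub, map_dl, map_mul' (F.V k l), hF.Vnu, hF.Vnu]
  have h1 : F.dl a k = F.dl k a := by unfold FB.dl; simp only [eq_comm]
  have h2 : F.dl a l = F.dl l a := by unfold FB.dl; simp only [eq_comm]
  rw [h1, h2]
  ring

/-- the curvature tensor of the sphere is a tensor -/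
theorem V_I (hF : F.Base) (k l a b c d : Ix n) : F.V k l (F.I a b c d) =
    F.dl l a * F.I k b c d - F.dl k a * F.I l b c d + F.dl l b * F.I a k c d - F.dl k b * F.I a l c d
    + F.dl l c * F.I a b k d - F.dl k c * F.I a b l d + F.dl l d * F.I a b c k
    - F.dl k d * F.I a b c l := by
  unfold FB.I
  rw [map_sub, map_mul' (F.V k l), map_mul' (F.V k l), V_P hF, V_P hF, V_P hF, V_P hF]
  ring

theorem V_lam (hRIC : Goal_RIC) (hF : F.Full) : F.VI F.lam := by
  intro k l
  have h5 := (hRIC n T F hF).2.2.2.2.1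
  unfold FB.lam
  rw [map_sm, map_sum]
  have h : ∑ a, F.V k l (F.Ric a a) = 0 := by
    simp only [h5]
    simp only [sum_sub_distrib, sum_add_distrib, dl_eq, sum_dd]
    ring
  rw [h, smul_zero]

/-- `E` is a tensor -/
theorem V_E (hRIC : Goal_RIC) (hF : F.Full) (k l a b c d : Ix n) : F.V k l (F.E a b c d) =
    F.dl l a * F.E k b c d - F.dl k a * F.E l b c d + F.dl l b * F.E a k c d - F.dl k b * F.E a l c d
    + F.dl l c * F.E a b k d - F.dl k c * F.E a b l d + F.dl l d * F.E a b c k
    - F.dl k d * F.E a b c l := by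
  unfold FB.E
  rw [map_sub, map_sm, map_mul' (F.V k l), V_lam hRIC hF k l, hF.VR, V_I hF.toBase]
  simp only [Algebra.smul_def]
  ring

/-- derivatives of `E` -/
theorem V_HE (hRIC : Goal_RIC) (hF : F.Full) (k l e a b c d : Ix n) :
    F.V k l (F.H e (F.E a b c d)) =
    F.dl l e * F.H k (F.E a b c d) - F.dl k e * F.H l (F.E a b c d)
    + F.dl l a * F.H e (F.E k b c d) - F.dl k a * F.H e (F.E l b c d)
    + F.dl l b * F.H e (F.E a k c d) - F.dl k b * F.H e (F.E a l c d)
    + F.dl l c * F.H e (F.E a b k d) - F.dl k c * F.H e (F.E a b l d)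
    + F.dl l d * F.H e (F.E a b c k) - F.dl k d * F.H e (F.E a b c l) := by
  have h := hF.VH k l e (F.E a b c d)
  rw [V_E hRIC hF] at h
  simp only [map_sub, map_add, map_dl_mul] at h
  linear_combination h

theorem V_Hf (hF : F.Base) {f : F.B} (hf : F.VI f) (k l a : Ix n) :
    F.V k l (F.H a f) = F.dl l a * F.H k f - F.dl k a * F.H l f := by
  have h := hF.VH k l a f
  rw [hf k l, map_zero, sub_zero] at h
  exact h

theorem V_HHf (hF : F.Base) {f : F.B} (hf : F.VI f) (k l a b : Ix n) :
    F.V k l (F.H a (F.H b f)) = F.dl l a * F.H k (F.H b f) - F.dl k a * F.H l (F.H b f)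
      + F.dl l b * F.H a (F.H k f) - F.dl k b * F.H a (F.H l f) := by
  have h := hF.VH k l a (F.H b f)
  rw [V_Hf hF hf] at h
  simp only [map_sub, map_dl_mul] at h
  linear_combination h

theorem goal_VIN (hRIC : Goal_RIC) (_hPRD : Goal_PRD) : Goal_VIN := by
  intro n T F hF
  have hB := hF.toBase
  refine ⟨V_lam hRIC hF, ?_, hB.tt_V, ?_, ?_, ?_, ?_, ?_, ?_, ?_⟩
  · intro k l
    unfold FB.e2
    simp only [map_sum, map_sq, V_E hRIC hF, ← mul_sum, dl_eq]
    rw [sq4 F.E k l, mul_zero]
  · intro k l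
    unfold FB.dE
    simp only [map_sum, map_sq, V_HE hRIC hF, ← mul_sum, dl_eq]
    rw [sq5 (fun e a b c d => F.H e (F.E a b c d)) k l, mul_zero]
  · intro c k l
    exact (F.V k l).map_algebraMap c
  · intro f g hf hg
    refine ⟨fun k l => ?_, fun k l => ?_, fun k l => ?_, fun k l => ?_⟩
    · rw [map_add, hf k l, hg k l, add_zero]
    · rw [map_sub, hf k l, hg k l, sub_zero]
    · rw [map_mul' (F.V k l), hf k l, hg k l, mul_zero, mul_zero, add_zero]
    · unfold FB.gg
      simp only [map_sum, map_mul', V_Hf hB hf, V_Hf hB hg, dl_eq]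
      have e : ∀ a, F.H a f * (dd l a * F.H k g - dd k a * F.H l g)
          + F.H a g * (dd l a * F.H k f - dd k a * F.H l f) =
          dd l a * (F.H a f * F.H k g + F.H a g * F.H k f)
          - dd k a * (F.H a f * F.H l g + F.H a g * F.H l f) := fun a => by ring
      simp only [e]
      rw [sum_sub_distrib, sum_dd, sum_dd]
      ring
  · intro c f hf k l
    rw [map_sm, hf k l, smul_zero]
  · intro f hf
    refine ⟨fun k l => ?_, fun k l => ?_, fun k l => ?_⟩
    · unfold FB.Lap
      simp only [map_sum, V_HHf hB hf, dl_eq]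
      rw [sum_sub_distrib, sum_add_distrib, sum_sub_distrib,
        sum_dd l (fun a => F.H k (F.H a f)), sum_dd k (fun a => F.H l (F.H a f)),
        sum_dd l (fun a => F.H a (F.H k f)), sum_dd k (fun a => F.H a (F.H l f))]
      ring
    · rw [← hB.DV, hf k l, map_zero]
    · unfold FB.h2
      simp only [map_sum, map_sq, V_HHf hB hf, ← mul_sum, dl_eq]
      rw [sq2 (fun a b => F.H a (F.H b f)) k l, mul_zero]
  · intro f hf a b
    have h := hB.HH a b f
    have h0 : ∀ c d, F.R a b c d * F.V c d f = 0 := fun c d => by rw [hf c d, mul_zero]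
    simp only [h0, sum_const_zero, smul_zero] at h
    exact sub_eq_zero.1 h
  · intro f hf k l a
    exact V_Hf hB hf k l a

end Pool.Agent.Helper47.RFn.VIN34

namespace Pool.Agent.Helper47.RFn

theorem goal_VIN (hRIC : Goal_RIC) (hPRD : Goal_PRD) : Goal_VIN := VIN34.goal_VIN hRIC hPRD

end Pool.Agent.Helper47.RFn
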